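import Pool.Agent.H65.CRZ.TN

/-!
# (DE) solution of the discrete convolution equation
-/

set_option autoImplicit false

open Complex Finset

namespace Pool.Agent.H89.CRZ

open Pool.Agent.H65.CRZ

/-- the weight -/
private noncomputable def w (b : ℂ) (n k : ℕ) : ℂ := cexp (b * (k : ℂ) / n)

private lemma w_add (b : ℂ) (n k l : ℕ) : w b n (k + l) = w b n k * w b n l := by
  unfold w
  rw [← Complex.exp_add]
  congr 1
  push_cast
  ring

private lemma arg_le {b : ℂ} {n k m : ℕ} {C₀ : ℝ} (hn : 1 ≤ n) (hb : ‖b‖ ≤ C₀) (hk : k ≤ m) :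
    ‖b * (k : ℂ) / n‖ ≤ C₀ * ((m : ℝ) / n) := by
  have hn0 : (0 : ℝ) < n := by exact_mod_cast hn
  rw [norm_div, norm_mul, Complex.norm_natCast, Complex.norm_natCast, mul_div_assoc]
  have hkm : (k : ℝ) / n ≤ (m : ℝ) / n := by
    apply div_le_div_of_nonneg_right _ hn0.le
    exact_mod_cast hk
  exact mul_le_mul hb hkm (by positivity) (le_trans (norm_nonneg b) hb)

private lemma arg_le' {b : ℂ} {n k : ℕ} {C₀ : ℝ} (hn : 1 ≤ n) (hb : ‖b‖ ≤ C₀) (hk : k ≤ n) :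
    ‖b * (k : ℂ) / n‖ ≤ C₀ := by
  have hn0 : (0 : ℝ) < n := by exact_mod_cast hn
  have h := arg_le (m := n) hn hb hk
  rwa [div_self hn0.ne', mul_one] at h

private lemma w_norm {b : ℂ} {n k : ℕ} {C₀ : ℝ} (hn : 1 ≤ n) (hb : ‖b‖ ≤ C₀) (hk : k ≤ n) :
    ‖w b n k‖ ≤ Real.exp C₀ :=
  (Complex.norm_exp_le_exp_norm _).trans (Real.exp_le_exp.mpr (arg_le' hn hb hk))

private lemma w_ne (b : ℂ) (n k : ℕ) : w b n k ≠ 0 := Complex.exp_ne_zero _

private lemma w_inv {b : ℂ} {n k : ℕ} {C₀ : ℝ} (hn : 1 ≤ n) (hb : ‖b‖ ≤ C₀) (hk : k ≤ n) :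
    ‖w b n k‖⁻¹ ≤ Real.exp C₀ := by
  rw [← norm_inv]
  unfold w
  rw [← Complex.exp_neg]
  refine (Complex.norm_exp_le_exp_norm _).trans (Real.exp_le_exp.mpr ?_)
  rw [norm_neg]
  exact arg_le' hn hb hk

private lemma w_sub1 {b : ℂ} {n k m : ℕ} {C₀ : ℝ} (hn : 1 ≤ n) (hb : ‖b‖ ≤ C₀) (hk : k ≤ m)
    (hm : m ≤ n) : ‖w b n k - 1‖ ≤ C₀ * ((m : ℝ) / n) * Real.exp C₀ := by
  have h := Complex.norm_exp_sub_sum_le_norm_mul_exp (b * (k : ℂ) / n) 1
  simp only [Finset.range_one, Finset.sum_singleton, pow_zero, Nat.factorial_zero, Nat.cast_one,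
    div_one, pow_one] at h
  refine h.trans ?_
  have h1 := arg_le hn hb hk
  have h2 := arg_le' hn hb (hk.trans hm)
  exact mul_le_mul h1 (Real.exp_le_exp.mpr h2) (Real.exp_pos _).le ((norm_nonneg _).trans h1)

private lemma w_sub2 {b : ℂ} {n m : ℕ} {C₀ : ℝ} (hn : 1 ≤ n) (hb : ‖b‖ ≤ C₀)
    (hm : m ≤ n) : ‖w b n m - 1 - b * (m : ℂ) / n‖ ≤ (C₀ * ((m : ℝ) / n)) ^ 2 * Real.exp C₀ := by
  have h := Complex.norm_exp_sub_sum_le_norm_mul_exp (b * (m : ℂ) / n) 2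
  simp only [Finset.sum_range_succ, Finset.range_zero, Finset.sum_empty, pow_zero,
    Nat.factorial_zero, Nat.cast_one, div_one, pow_one, Nat.factorial_one, zero_add] at h
  have he : w b n m - 1 - b * (m : ℂ) / n = cexp (b * (m : ℂ) / n) - (1 + b * (m : ℂ) / n) := by
    unfold w; ring
  rw [he]
  refine h.trans ?_
  have h1 := arg_le hn hb (le_refl m)
  have h2 := arg_le' hn hb hm
  exact mul_le_mul (pow_le_pow_left₀ (norm_nonneg _) h1 2) (Real.exp_le_exp.mpr h2)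
    (Real.exp_pos _).le (pow_nonneg ((norm_nonneg _).trans h1) 2)

/-- the partial sums -/
private noncomputable def U (b : ℂ) (n : ℕ) (e : ℕ → ℂ) (j : ℕ) : ℂ :=
  ∑ k ∈ range j, w b n k * e k

private lemma U_eq (b : ℂ) {n : ℕ} (e : ℕ → ℂ) (j : ℕ) :
    U b n e j = w b n j * ∑ i ∈ Finset.Icc 1 j, cexp (-b * (i : ℂ) / n) * e (j - i) := by
  unfold U
  rw [Finset.mul_sum]
  refine Finset.sum_nbij' (fun k => j - k) (fun i => j - i) ?_ ?_ ?_ ?_ ?_
  · intro k hk; rw [mem_range] at hk; rw [Finset.mem_Icc]; omega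
  · intro i hi; rw [Finset.mem_Icc] at hi; rw [mem_range]; omega
  · intro k hk; rw [mem_range] at hk; omega
  · intro i hi; rw [Finset.mem_Icc] at hi; omega
  · intro k hk
    rw [mem_range] at hk
    have h1 : j - (j - k) = k := by omega
    rw [h1]
    have h2 : w b n j * (cexp (-b * ((j - k : ℕ) : ℂ) / n) * e k) =
        (w b n j * cexp (-b * ((j - k : ℕ) : ℂ) / n)) * e k := by ring
    rw [h2]
    congr 1
    unfold w
    rw [← Complex.exp_add]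
    congr 1
    rw [Nat.cast_sub hk.le]
    ring

private lemma main {C₀ C : ℝ} (h0 : 1 ≤ C₀) (h1 : 1 ≤ C) {n : ℕ} {ξ : ℝ} {b : ℂ} {e : ℕ → ℂ}
    (hn : 1 ≤ n) (hξ : 0 ≤ ξ) (hb : ‖b‖ ≤ C₀) (he : ∀ j : ℕ, j ≤ n → ‖e j‖ ≤ C)
    (hd : ∀ i j : ℕ, i ≤ n → j ≤ n → ‖e i - e j‖ ≤ C * (|(i : ℝ) - j| / n + ξ))
    (hs : ∀ j : ℕ, j ≤ n →
      ‖(∑ i ∈ Finset.Icc 1 j, cexp (-b * (i : ℂ) / n) * e (j - i)) - j‖ ≤ C * (1 + ξ * n))
    {p m j : ℕ} (hm : 1 ≤ m) (hpj : p ≤ j) (hjm : j ≤ p + m) (hpm : p + m ≤ n) :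
    ‖e j - (1 + b * (j : ℂ) / n)‖ ≤ (7 * C₀ ^ 2 * C * Real.exp C₀ ^ 3) *
      ((m : ℝ) / n + ξ + (1 + ξ * n) / m) := by
  have hn0 : (0 : ℝ) < n := by exact_mod_cast hn
  have hm0 : (0 : ℝ) < m := by exact_mod_cast hm
  set E := Real.exp C₀ with hE
  have hE1 : 1 ≤ E := Real.one_le_exp (by linarith)
  set μ : ℝ := (m : ℝ) / n with hμ
  have hμ0 : 0 < μ := by positivity
  have hmn : m ≤ n := by omega
  -- the bound for the partial sums
  have hU : ∀ i : ℕ, i ≤ n → ‖U b n e i - w b n i * i‖ ≤ E * (C * (1 + ξ * n)) := by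
    intro i hi
    rw [U_eq, ← mul_sub, norm_mul]
    exact mul_le_mul (w_norm hn hb hi) (hs i hi) (norm_nonneg _) (by positivity)
  -- the difference of the partial sums
  have hdiff : U b n e (p + m) - U b n e p = ∑ k ∈ range m, w b n (p + k) * e (p + k) := by
    unfold U
    rw [Finset.sum_range_add]
    ring
  have hA : ‖(U b n e (p + m) - U b n e p) - m * (w b n p * e j)‖ ≤
      m * ((C₀ * μ * E) * E * C + E * (C * (μ + ξ))) := by
    have h2 : (m : ℂ) * (w b n p * e j) = ∑ _k ∈ range m, w b n p * e j := by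
      rw [Finset.sum_const, card_range, nsmul_eq_mul]
    rw [hdiff, h2, ← Finset.sum_sub_distrib]
    refine (norm_sum_le _ _).trans ?_
    have h3 : ∀ k ∈ range m, ‖w b n (p + k) * e (p + k) - w b n p * e j‖ ≤
        (C₀ * μ * E) * E * C + E * (C * (μ + ξ)) := by
      intro k hk
      rw [mem_range] at hk
      have h4 : w b n (p + k) * e (p + k) - w b n p * e j =
          (w b n k - 1) * w b n p * e (p + k) + w b n p * (e (p + k) - e j) := by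
        rw [w_add]; ring
      rw [h4]
      refine (norm_add_le _ _).trans (add_le_add ?_ ?_)
      · rw [norm_mul, norm_mul]
        have h5 := w_sub1 hn hb hk.le hmn
        have h6 := w_norm (k := p) hn hb (by omega)
        have h7 := he (p + k) (by omega)
        exact mul_le_mul (mul_le_mul h5 h6 (norm_nonneg _) ((norm_nonneg _).trans h5)) h7
          (norm_nonneg _) (mul_nonneg ((norm_nonneg _).trans h5) (by positivity))
      · rw [norm_mul]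
        have h6 := w_norm (k := p) hn hb (by omega)
        have h7 := hd (p + k) j (by omega) (by omega)
        refine mul_le_mul h6 (h7.trans ?_) (norm_nonneg _) (by positivity)
        apply mul_le_mul_of_nonneg_left _ (by linarith)
        have h8 : |((p + k : ℕ) : ℝ) - j| ≤ m := by
          rw [abs_le]
          have a1 : (p : ℝ) ≤ j := by exact_mod_cast hpj
          have a2 : (j : ℝ) ≤ p + m := by exact_mod_cast hjm
          have a3 : (k : ℝ) ≤ m := by exact_mod_cast hk.le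
          have a4 : (0 : ℝ) ≤ k := Nat.cast_nonneg k
          push_cast
          constructor <;> linarith
        have h9 : |((p + k : ℕ) : ℝ) - j| / n ≤ μ := div_le_div_of_nonneg_right h8 hn0.le
        linarith
    refine (Finset.sum_le_sum h3).trans ?_
    rw [Finset.sum_const, card_range, nsmul_eq_mul]
  -- the main term
  have hB : ‖(w b n (p + m) * ((p + m : ℕ) : ℂ) - w b n p * p) -
      m * (w b n p * (1 + b * (j : ℂ) / n))‖ ≤ E * (m * (C₀ * μ + C₀ ^ 2 * μ * E)) := by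
    have h2 : (w b n (p + m) * ((p + m : ℕ) : ℂ) - w b n p * p) -
        m * (w b n p * (1 + b * (j : ℂ) / n)) =
        w b n p * (m * (b * ((p + m - j : ℕ) : ℂ) / n) +
          ((p + m : ℕ) : ℂ) * (w b n m - 1 - b * (m : ℂ) / n)) := by
      rw [w_add, Nat.cast_sub hjm]
      push_cast
      ring
    rw [h2, norm_mul]
    refine mul_le_mul (w_norm hn hb (by omega)) ?_ (norm_nonneg _) (by positivity)
    refine (norm_add_le _ _).trans ?_
    rw [norm_mul, norm_mul, Complex.norm_natCast, Complex.norm_natCast]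
    have h3 := arg_le (k := p + m - j) (m := m) hn hb (by omega)
    have h4 := w_sub2 (m := m) hn hb hmn
    have h5 : ((p + m : ℕ) : ℝ) ≤ n := by exact_mod_cast hpm
    have h6 : ((p + m : ℕ) : ℝ) * ‖w b n m - 1 - b * (m : ℂ) / n‖ ≤
        n * ((C₀ * μ) ^ 2 * E) := mul_le_mul h5 h4 (norm_nonneg _) hn0.le
    have h7 : (n : ℝ) * ((C₀ * μ) ^ 2 * E) = m * (C₀ ^ 2 * μ * E) := by
      have : (n : ℝ) * μ = m := by rw [hμ]; field_simp
      calc (n : ℝ) * ((C₀ * μ) ^ 2 * E) = (n * μ) * (C₀ ^ 2 * μ * E) := by ring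
        _ = _ := by rw [this]
    have h8 : (m : ℝ) * ‖b * ((p + m - j : ℕ) : ℂ) / n‖ ≤ m * (C₀ * μ) :=
      mul_le_mul_of_nonneg_left h3 hm0.le
    calc _ ≤ m * (C₀ * μ) + m * (C₀ ^ 2 * μ * E) := add_le_add h8 (h6.trans h7.le)
      _ = _ := by ring
  -- together
  have hU1 := hU (p + m) hpm
  have hU2 := hU p (by omega)
  have hT : ‖(m : ℂ) * (w b n p * (e j - (1 + b * (j : ℂ) / n)))‖ ≤
      m * ((C₀ * μ * E) * E * C + E * (C * (μ + ξ))) + E * (m * (C₀ * μ + C₀ ^ 2 * μ * E)) +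
        E * (C * (1 + ξ * n)) + E * (C * (1 + ξ * n)) := by
    have h2 : (m : ℂ) * (w b n p * (e j - (1 + b * (j : ℂ) / n))) =
        -((U b n e (p + m) - U b n e p) - m * (w b n p * e j)) +
        ((w b n (p + m) * ((p + m : ℕ) : ℂ) - w b n p * p) -
          m * (w b n p * (1 + b * (j : ℂ) / n))) +
        (U b n e (p + m) - w b n (p + m) * ((p + m : ℕ) : ℂ)) +
        -(U b n e p - w b n p * p) := by ring
    rw [h2]
    refine (norm_add_le _ _).trans (add_le_add ?_ ?_)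
    · refine (norm_add_le _ _).trans (add_le_add ?_ hU1)
      refine (norm_add_le _ _).trans (add_le_add ?_ hB)
      rw [norm_neg]; exact hA
    · rw [norm_neg]; exact hU2
  rw [norm_mul, norm_mul, Complex.norm_natCast] at hT
  have hw := w_inv (k := p) hn hb (by omega)
  have hwp : 0 < ‖w b n p‖ := norm_pos_iff.mpr (w_ne b n p)
  set X := ‖e j - (1 + b * (j : ℂ) / n)‖ with hX
  set R := m * ((C₀ * μ * E) * E * C + E * (C * (μ + ξ))) + E * (m * (C₀ * μ + C₀ ^ 2 * μ * E)) +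
        E * (C * (1 + ξ * n)) + E * (C * (1 + ξ * n)) with hR
  have hR0 : 0 ≤ R := by positivity
  have h3 : X ≤ R / m * E := by
    have h4 : X = (m * (‖w b n p‖ * X)) / m * ‖w b n p‖⁻¹ := by
      field_simp
    rw [h4]
    refine mul_le_mul (div_le_div_of_nonneg_right hT hm0.le) hw (by positivity) (by positivity)
  refine h3.trans ?_
  have h5 : R / m * E = C₀ * C * E ^ 3 * μ + E ^ 2 * C * (μ + ξ) + C₀ * E ^ 2 * μ +
      C₀ ^ 2 * E ^ 3 * μ + 2 * E ^ 2 * C * ((1 + ξ * n) / m) := by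
    rw [hR]
    field_simp
    ring
  rw [h5]
  set ν : ℝ := (1 + ξ * n) / m with hν
  have hν0 : 0 ≤ ν := by positivity
  have hC2 : 1 ≤ C₀ ^ 2 := one_le_pow₀ h0
  have hE23 : E ^ 2 ≤ E ^ 3 := pow_le_pow_right₀ hE1 (by norm_num)
  have hE3 : 0 < E ^ 3 := by positivity
  have hE2 : 0 < E ^ 2 := by positivity
  have hCC : C₀ ≤ C₀ ^ 2 := by nlinarith
  have hP : 0 < C₀ ^ 2 * C * E ^ 3 := by positivity
  set P := C₀ ^ 2 * C * E ^ 3 with hPd
  have b1 : C₀ * C * E ^ 3 ≤ P := by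
    rw [hPd]; exact mul_le_mul_of_nonneg_right (mul_le_mul_of_nonneg_right hCC (by linarith)) hE3.le
  have b2 : E ^ 2 * C ≤ P := by
    rw [hPd]
    calc E ^ 2 * C ≤ E ^ 3 * C := mul_le_mul_of_nonneg_right hE23 (by linarith)
      _ = 1 * C * E ^ 3 := by ring
      _ ≤ C₀ ^ 2 * C * E ^ 3 :=
        mul_le_mul_of_nonneg_right (mul_le_mul_of_nonneg_right hC2 (by linarith)) hE3.le
  have b3 : C₀ * E ^ 2 ≤ P := by
    rw [hPd]
    calc C₀ * E ^ 2 ≤ C₀ ^ 2 * E ^ 3 := mul_le_mul hCC hE23 hE2.le (by positivity)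
      _ = C₀ ^ 2 * 1 * E ^ 3 := by ring
      _ ≤ C₀ ^ 2 * C * E ^ 3 :=
        mul_le_mul_of_nonneg_right (mul_le_mul_of_nonneg_left h1 (by positivity)) hE3.le
  have b4 : C₀ ^ 2 * E ^ 3 ≤ P := by
    rw [hPd]
    calc C₀ ^ 2 * E ^ 3 = C₀ ^ 2 * 1 * E ^ 3 := by ring
      _ ≤ C₀ ^ 2 * C * E ^ 3 :=
        mul_le_mul_of_nonneg_right (mul_le_mul_of_nonneg_left h1 (by positivity)) hE3.le
  have c1 : C₀ * C * E ^ 3 * μ ≤ P * μ := mul_le_mul_of_nonneg_right b1 hμ0.le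
  have c2 : E ^ 2 * C * (μ + ξ) ≤ P * (μ + ξ) :=
    mul_le_mul_of_nonneg_right b2 (by positivity)
  have c3 : C₀ * E ^ 2 * μ ≤ P * μ := mul_le_mul_of_nonneg_right b3 hμ0.le
  have c4 : C₀ ^ 2 * E ^ 3 * μ ≤ P * μ := mul_le_mul_of_nonneg_right b4 hμ0.le
  have c5 : E ^ 2 * C * ν ≤ P * ν := mul_le_mul_of_nonneg_right b2 hν0
  have hPμ : 0 ≤ P * μ := by positivity
  have hPξ : 0 ≤ P * ξ := mul_nonneg hP.le hξ
  have hPν : 0 ≤ P * ν := mul_nonneg hP.le hν0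
  have h6 : 7 * C₀ ^ 2 * C * E ^ 3 * (μ + ξ + ν) = 7 * (P * μ) + 7 * (P * ξ) + 7 * (P * ν) := by
    rw [hPd]; ring
  rw [h6]
  nlinarith

theorem pf_DE : T_DE := by
  intro C₀ C h0 h1
  have hP : 1 ≤ 7 * C₀ ^ 2 * C * Real.exp C₀ ^ 3 := by
    have a1 : 1 ≤ C₀ ^ 2 := one_le_pow₀ h0
    have a2 : 1 ≤ Real.exp C₀ ^ 3 := one_le_pow₀ (Real.one_le_exp (by linarith))
    have a3 : 1 ≤ C₀ ^ 2 * C := one_le_mul_of_one_le_of_one_le a1 h1
    have a4 : 1 ≤ C₀ ^ 2 * C * Real.exp C₀ ^ 3 := one_le_mul_of_one_le_of_one_le a3 a2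
    nlinarith
  refine ⟨3 * (7 * C₀ ^ 2 * C * Real.exp C₀ ^ 3), by linarith, ?_⟩
  intro n ξ b e hn hξ hb he hd hs j hj
  have hn0 : (0 : ℝ) < n := by exact_mod_cast hn
  have hn1 : (1 : ℝ) ≤ n := by exact_mod_cast hn
  set r := Real.sqrt n with hr
  have hr2 : r ^ 2 = n := Real.sq_sqrt hn0.le
  have hr1 : 1 ≤ r := Real.one_le_sqrt.mpr hn1
  have hr0 : 0 < r := by linarith
  have hm1 : 1 ≤ ⌈r⌉₊ := Nat.one_le_iff_ne_zero.mpr (Nat.ceil_pos.mpr hr0).ne'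
  have hmn : ⌈r⌉₊ ≤ n := by
    apply Nat.ceil_le.mpr
    nlinarith
  have hm := main h0 h1 hn hξ hb he hd hs (p := min j (n - ⌈r⌉₊)) (m := ⌈r⌉₊) (j := j) hm1
    (min_le_left _ _) (by omega) (by omega)
  refine hm.trans ?_
  have hP0 : 0 ≤ 7 * C₀ ^ 2 * C * Real.exp C₀ ^ 3 := by linarith
  have e1 : (n : ℝ) ^ (-(1 / 2) : ℝ) = r⁻¹ := by
    rw [Real.rpow_neg hn0.le, hr, Real.sqrt_eq_rpow]
  have e2 : (n : ℝ) ^ (1 / 2 : ℝ) = r := by rw [hr, Real.sqrt_eq_rpow]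
  rw [e1, e2]
  have hc1 : r ≤ (⌈r⌉₊ : ℝ) := Nat.le_ceil r
  have hc2 : (⌈r⌉₊ : ℝ) ≤ r + 1 := (Nat.ceil_lt_add_one hr0.le).le
  have d1 : (⌈r⌉₊ : ℝ) / n ≤ 2 * r⁻¹ := by
    rw [div_le_iff₀ hn0, ← hr2]
    have : 2 * r⁻¹ * r ^ 2 = 2 * r := by field_simp
    rw [this]; linarith
  have d2 : ξ ≤ ξ * r := by nlinarith
  have d3 : (1 + ξ * n) / (⌈r⌉₊ : ℝ) ≤ r⁻¹ + ξ * r := by
    have h5 : (1 + ξ * n) / (⌈r⌉₊ : ℝ) ≤ (1 + ξ * n) / r :=
      div_le_div_of_nonneg_left (by positivity) hr0 hc1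
    refine h5.trans (le_of_eq ?_)
    rw [← hr2]; field_simp
  have hri : 0 < r⁻¹ := inv_pos.mpr hr0
  have d4 : (⌈r⌉₊ : ℝ) / n + ξ + (1 + ξ * n) / (⌈r⌉₊ : ℝ) ≤ 3 * (r⁻¹ + ξ * r) := by
    have : 0 ≤ ξ * r := by positivity
    linarith
  calc 7 * C₀ ^ 2 * C * Real.exp C₀ ^ 3 * ((⌈r⌉₊ : ℝ) / n + ξ + (1 + ξ * n) / (⌈r⌉₊ : ℝ))
      ≤ 7 * C₀ ^ 2 * C * Real.exp C₀ ^ 3 * (3 * (r⁻¹ + ξ * r)) :=
        mul_le_mul_of_nonneg_left d4 hP0
    _ = _ := by ring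

end Pool.Agent.H89.CRZ
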